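import Pool.Agent.X302.MW.Log

/-!
# MP_f8720a_ag: Kato's conjecture for the extreme weights, for `H^2`, and in relative dimension three

Let `X` be a projective SNCL scheme of relative dimension `n` over the log point of a finite field `k`
with `q` elements, `Y^(a+1)` the disjoint union of the `(a+1)`-fold intersections of its smooth
components over an algebraic closure of `k`, `H^m` the Kummer log étale cohomology of the geometric
fibre with coefficients in `Ω ⊇ ℚ_l`, `P = W` the weight filtration on `H^m` and `N` the monodromy
operator. No lifting of `X` is assumed, so that the hard Lefschetz theorem for `H^m` is not available.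

`SemistableModel Ω Γ n q` consists of the cohomology of the strata `Y^(a+1)` (graded, with Poincare
duality and the hard Lefschetz theorem for the smooth projective strata, the restriction and Gysin
maps, the Frobenius with Deligne's theorem), of the `H^m` with `W`, `N` and the action of the Frobenius
(and further commuting symmetries in `Γ`), and of the weight spectral sequence with its description of
`N`. `DivisorClasses` are the groups of classes of components and of divisors of the strata with their
well-known positivity (the degree, the Hodge index theorem, and Weil's theorem on the polarization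
of the Picard variety).
-/

set_option autoImplicit false

open Module

universe u v

namespace Pool.Agent.Results.MP_f8720a_ag.ExtremeWeights

open Pool.Agent.Y143 Pool.Agent.X302.MW

variable {Ω : Type u} [Field Ω] [CharZero Ω] {Γ : Type} {n q : ℕ}

/-- The extreme weights: `P_(2 m - 1) H^m` is the kernel of `N ^ m` and `P_0 H^m` is the image of
`N ^ m`, for all `m ≥ 1`. -/
def TopStep (X : SemistableModel.{u, v} Ω Γ n q) : Prop :=
  ∀ m : ℕ, 1 ≤ m → LinearMap.ker (X.N m ^ m) = X.W m (2 * m - 1) ∧
    LinearMap.range (X.N m ^ m) = X.W m 0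

/-- `N ^ e : gr_(m + e) H^m → gr_(m - e) H^m` is bijective for the largest `e` in question, that is for
`e = m` if `m ≤ n` and for `e = 2 n - m` if `m ≥ n`. -/
def ExtremeIso (X : SemistableModel.{u, v} Ω Γ n q) : Prop :=
  ∀ m e : ℕ, 1 ≤ e → (m = e ∨ m + e = 2 * n) → PowerInj X m e ∧ PowerSurj X m e

/-- The next weights: `N ^ (m - 1) : gr_(2 m - 1) H^m → gr_1 H^m` is injective for `m ≥ 2`, and
`N ^ (2 n - 1 - m) : gr_(2 n - 1) H^m → gr_(2 m + 1 - 2 n) H^m` is surjective for `m ≤ 2 n - 2`. Both
statements apply to the middle degree `m = n`. -/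
def NextStep (X : SemistableModel.{u, v} Ω Γ n q) : Prop :=
  (∀ m e : ℕ, 1 ≤ e → m = e + 1 → PowerInj X m e) ∧
    ∀ m e : ℕ, 1 ≤ e → m + e + 1 = 2 * n → PowerSurj X m e

/-- Kato's conjecture for `H^2` is equivalent to the inequality `dim gr_1 H^2 ≤ dim gr_3 H^2`. -/
def DegreeTwo (X : SemistableModel.{u, v} Ω Γ n q) : Prop :=
  KatoFor X 2 ↔ grDim X 2 1 ≤ grDim X 2 3

/-- If `L ^ (n - 2) : gr_1 H^2 → gr_(2 n - 3) H^(2 n - 2)` is injective, Kato's conjecture holds for
`H^2` and `H^(2 n - 2)`. -/
def FromLefschetz (X : SemistableModel.{u, v} Ω Γ n q) : Prop :=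
  2 ≤ n → LefschetzOnGrOne X → KatoFor X 2 ∧ KatoFor X (2 * n - 2)

/-- Kato's conjecture for `H^m` is equivalent to the one for `H^(2 n - m)`. -/
def Dual (X : SemistableModel.{u, v} Ω Γ n q) : Prop :=
  ∀ m m' : ℕ, m + m' = 2 * n → (KatoFor X m ↔ KatoFor X m')

/-- If `n = 3`, Kato's conjecture for all `H^m` is equivalent to `dim gr_1 H^2 ≤ dim gr_3 H^2` together
with the injectivity of `N : gr_4 H^3 → gr_2 H^3`. -/
def DimensionThree (X : SemistableModel.{u, v} Ω Γ n q) : Prop :=
  n = 3 → ((∀ m, KatoFor X m) ↔ grDim X 2 1 ≤ grDim X 2 3 ∧ PowerInj X 3 1)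

/-- **Kato's conjecture for the extreme weights.** Let `X` be a projective SNCL scheme of relative
dimension `n` over the log point of a finite field. Then:

(1) `P_(2 m - 1) H^m = Ker N ^ m` and `P_0 H^m = Im N ^ m` for all `m ≥ 1`; more generally the map
`N ^ e : gr_(m + e) H^m → gr_(m - e) H^m` is bijective for the largest possible `e`;

(2) for the next value `e = min(m, 2 n - m) - 1 ≥ 1` it is injective if `m ≤ n` and surjective if
`m ≥ n`; in particular `gr_(2 n - 1) H^n ≅ gr_1 H^n` in the middle degree;

(3) Kato's conjecture for `H^2` is equivalent to the inequality `dim gr_1 H^2 ≤ dim gr_3 H^2`;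

(4) Kato's conjecture for `H^2` and `H^(2 n - 2)` follows from the injectivity of the map
`L ^ (n - 2) : gr_1 H^2 → gr_(2 n - 3) H^(2 n - 2)`, a part of the log hard Lefschetz conjecture;

(5) Kato's conjecture for `H^m` is equivalent to the one for `H^(2 n - m)`;

(6) if `n = 3`, Kato's conjecture for all `H^m` is equivalent to `dim gr_1 H^2 ≤ dim gr_3 H^2` together
with the injectivity of the single map `N : gr_4 H^3 → gr_2 H^3`. -/
theorem result (X : SemistableModel.{u, v} Ω Γ n q) (A : DivisorClasses X.toSpecialFibre) :
    (TopStep X ∧ ExtremeIso X ∧ NextStep X) ∧ DegreeTwo X ∧ FromLefschetz X ∧ Dual X ∧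
      DimensionThree X := by
  refine ⟨⟨fun m hm => ker_range A m hm, ?_, ⟨?_, ?_⟩⟩, kato_two_iff A, ?_, ?_, ?_⟩
  · rintro m e he (h | h)
    · subst h
      exact top_low A m he
    · exact top_high A m e he h
  · rintro m e he rfl
    exact second_low A e he
  · intro m e he h
    exact second_high A m e he h
  · intro hn hL
    have h := kato_two_of_lefschetz A hn hL
    exact ⟨h, kato_dual X (m := 2) (by omega) h⟩
  · intro m m' h
    exact ⟨kato_dual X h, kato_dual X (by omega)⟩
  · rintro rfl
    exact kato_three_iff A

end Pool.Agent.Results.MP_f8720a_ag.ExtremeWeights
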