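import Pool.Agent.X302.MW.Third

/-!
# MP_f8720a_ag: Kato's conjecture for the three extreme weights in the middle degree
-/

set_option autoImplicit false

open Module

universe u v

namespace Pool.Agent.Results.MP_f8720a_ag.MiddleDegree

open Pool.Agent.Y143 Pool.Agent.X302.MW

/-- **The three extreme weights in the middle degree.** Let `Y` be a projective SNCL scheme of
relative dimension `n ≥ 3` over the log point of a finite field with `q` elements; no lifting of
`Y` is assumed, and the log hard Lefschetz conjecture is not used. Let `h = dim H^n(Y, O_Y)`. Suppose
that the graded pieces of weight zero and one of the log crystalline cohomology `H^n` satisfy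
`dim gr_0 + (dim gr_1) / 2 ≥ h` (no condition if `H^n(Y, O_Y) = 0`), that the multiplicities of the
Frobenius eigenvalues of weight two on the log cohomology `H^n` are independent of `l` (including
`p`), and that the Tate conjecture for divisors holds for the intersections of `n - 2` components.
Then `N ^ e : gr_(n + e) H^n → gr_(n - e) H^n` is bijective for `e = n, n - 1, n - 2`. For `n = 3` this
is Kato's conjecture for `H^3` (`PowerIsoFrom X 3 1 = KatoFor X 3`).

Here `X` is the `l`-adic theory (cohomology of the strata, Kummer log étale cohomology with weight
filtration and `N`, and the `l`-adic weight spectral sequence) and `X'` is the `p`-adic theory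
(crystalline cohomology of the strata, log crystalline cohomology, and the weight spectral sequence
of Mokrane and Nakkajima), with coefficients in algebraically closed fields `Ω` and `Ω'`, and `R` is
the valuation ring of `Ω'`; `A` and `A'` are the classes of divisors on the strata. The
hypotheses are the following.

* `hI` (known, Deligne): the Frobenius eigenvalues on the strata are algebraic integers.
* `hM`: an eigenvalue of weight two on the `l`-adic `H^n`, which is not the product of `q` and a root of
  unity, has at most the multiplicity of its conjugates on the log crystalline cohomology `H^n`.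
* `hN`: on a subspace `U` of the log crystalline cohomology `H^n` stable under the Frobenius, the sum
  of the slopes is at least `dim U - h`; this holds because the Newton polygon lies above the Hodge
  polygon.
* `hW`: the condition on the graded pieces `gr_0` and `gr_1`, in the form
  `2 h ≤ dim W_0 + dim W_1`.
* `hT`: the Tate conjecture for divisors on the intersections `Y^(n-2)` of `n - 2` components. -/
theorem result {Ω : Type u} [Field Ω] [CharZero Ω] [IsAlgClosed Ω] {Γ : Type}
    {Ω' : Type u} [Field Ω'] [CharZero Ω'] [IsAlgClosed Ω'] {Γ' : Type} {n q : ℕ}
    (hq : IsPrimePow q)
    (X : SemistableModel.{u, v} Ω Γ n q) (A : DivisorClasses X.toSpecialFibre)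
    (X' : SemistableModel.{u, v} Ω' Γ' n q) (A' : DivisorClasses X'.toSpecialFibre)
    (hI : HasIntegralFrobenius X.toSpecialFibre)
    (R : ValuationSubring Ω') (hR : ((q : Ω'))⁻¹ ∉ R) (hn : 3 ≤ n)
    (hM : NotMore X X' n)
    (h : ℕ) (hN : NewtonBound X' n h R)
    (hW : IsCompletelyDegenerate X' n h)
    (hT : A.TateConj (n - 3)) : PowerIsoFrom X n (n - 2) ∧ (n = 3 → KatoFor X 3) := by
  have h1 := middle_three X A hn hT
    (gradedTate_of_degenerate hq X X' A' hI R hR n (by omega) hM hN hW)
  refine ⟨h1, ?_⟩
  rintro rfl
  exact fun e he => h1 e he (by omega)

end Pool.Agent.Results.MP_f8720a_ag.MiddleDegree
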