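import Pool.Agent.X305.LT.Amp

/-!
# Kato's log `ℓ`-adic monodromy-weight conjecture follows from a sublinear bound for weights

Let `s` be the log point of a finite field with `q` elements. `LogClass` is the log `ℓ`-adic cohomology of a class of
log schemes over `s`, closed under products and containing a log Tate curve, for example of the projective
SNCL schemes (the product of two SNCL schemes has an SNCL log modification, with the same log
cohomology; a polygon of projective lines is a log Tate curve). `F` is the action of a geometric Frobenius
element and `N` the monodromy operator on `H^m(X)` (coefficients in an algebraic closure `Ω` of the field of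
`ℓ`-adic numbers), `N F = q F N`. The conjecture for `H^m(X)` is `FN.IsPure m` (the weight filtration `P` is given by
the weights of `F`).

The conjecture implies that the weights of `F` on the kernel of `N` in `H^n(X)` are at most `n`. The weights of
`H^n(X)` are at most `2 n`.

**Theorem.** The following are equivalent:
(1) the conjecture for all `X` and all degrees;
(2) for some function `f` with `f(n)/n → 0`: for all `X` of dimension `n` the weights of `F` on the kernel of `N` in
`H^n(X)` are smaller than `n + f(n)`;
(3) for some function `f` such that for each `d ≥ 1` there is a `k ≥ 1` with `f(d k) ≤ k`: for all `X` of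
dimension `n` and `2 r ≥ n + f(n)` no nonzero class in `H^n(X)` satisfies `F z = q ^ r z` and `N z = 0`, that is
`H^n(X)(r)` has no nonzero element fixed by the log fundamental group.

In (3) there may be no condition at all in most dimensions (take `f(n) = n + 1` there).

The proof of (3) ⇒ (1): if the conjecture fails then, by the theorem of `X305/LT/Main.lean` (which uses
`isPure_of_tatePart` of `X268/KC`), some `H^n(X)`, `dim X = n = 2 r - 1`, contains a nonzero `z` with `F z = q ^ r z`,
`N z = 0`. Its powers `z ⊗ … ⊗ z` in `H^(n k)(X^k)` have weight `2 r k = n k + k`, they are killed by `N`, and they are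
not zero. For a `k` with `f(n k) ≤ k` this contradicts the hypothesis.
-/

set_option autoImplicit false

universe u

namespace Pool.Agent.Results.MP_f8720a_ag.SublinearWeights

open Pool.Agent.X268.WM Pool.Agent.X305.LT

/-- **Kato's log `ℓ`-adic monodromy-weight conjecture is equivalent to a bound `n + o(n)` for the weights of the
kernel of `N` on the middle cohomology.** -/
theorem result {Ω : Type} [Field Ω] [CharZero Ω] {q : ℕ} (hq : 1 < q) (𝒞 : LogClass.{u} Ω q) :
    List.TFAE [
      -- (1) Kato's conjecture
      ∀ (n : ℕ) (X : 𝒞.Var n) (m : ℕ), m ≤ 2 * n → (𝒞.H X m).IsPure m,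
      -- (2) the weights on the kernel of `N` in the middle cohomology are smaller than `n + f(n)`, `f(n) = o(n)`
      ∃ f : ℕ → ℕ, Filter.Tendsto (fun n : ℕ => (f n : ℝ) / n) Filter.atTop (nhds 0) ∧
        ∀ (n : ℕ) (X : 𝒞.Var n) (w : ℤ) (a : Ω), IsWeil q w a → (n : ℤ) + f n ≤ w →
          ∀ z : (𝒞.H X n).V, (𝒞.H X n).F z = a • z → (𝒞.H X n).N z = 0 → z = 0,
      -- (3) the same only for the eigenvalues `q ^ r`, with a condition on `f` on multiples only
      ∃ f : ℕ → ℕ, (∀ d : ℕ, 0 < d → ∃ k : ℕ, 0 < k ∧ f (d * k) ≤ k) ∧
        ∀ (n : ℕ) (X : 𝒞.Var n) (r : ℤ), (n : ℤ) + f n ≤ 2 * r →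
          NoInvariants (𝒞.H X n) r] :=
  tfae_bound hq 𝒞

end Pool.Agent.Results.MP_f8720a_ag.SublinearWeights
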