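import Pool.Agent.X268.KC.Main

/-!
# Kato's log `ℓ`-adic monodromy-weight conjecture follows from its Tate part

Let `s` be the log point of a finite field with `q` elements, and consider the projective SNCL schemes `X` over
`s`, which need not lift to a semistable family. Let `F` be the action of a geometric Frobenius element, and
`N` the monodromy operator, on the log `ℓ`-adic cohomology `H^m(X)` (coefficients in an algebraic closure `Ω` of
the `ℓ`-adic numbers), so `N F = q F N`. The weight filtration `P` is given by the weights of `F`
(`gr^P_w` is the sum of the generalized eigenspaces for the eigenvalues of weight `w`), and Kato's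
conjecture for `H^m(X)` is `FN.IsPure m`: for `k ≥ 0` the operator `N ^ k` maps the part of weight `m + k`
isomorphically onto the part of weight `m - k`. (The conjecture over any log point, and over any
family of log points, follows from the case of finite fields by specialization.)

**Theorem.** Kato's conjecture, for all `X` and all degrees, follows from the following part of it
(`TatePart`), in which only the Frobenius eigenvalues that are powers of `q` occur: if `z` in
`H^m(X) ⊗ H^m'(X') ⊂ H^(m + m')(X × X')` is an eigenvector of `F` with the eigenvalue `q ^ r`, of weight
`2 r = m + m' + k`, `k > 0`, and `N ^ k z = 0`, then `z = 0`. (Conversely this is contained in Kato's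
conjecture for the products `X × X'`.)

No liftings and no hard Lefschetz theorem for the log cohomology are used: the hard Lefschetz theorem is not
known for it. The properties of the cohomology used (`LogCohomology`) are theorems: the eigenvalues of
Frobenius are Weil numbers and the alternating product of the characteristic polynomials is rational (both by
the weight spectral sequence and Deligne's theorem for the strata); Poincaré duality; the weak Lefschetz
theorem (injectivity `H^m(X) → H^m(Y)`, `m ≤ dim Y`) for a hyperplane section `Y` transversal to the
strata (in a suitable embedding), which follows from the perversity of the nearby cycles. The rationality of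
the characteristic polynomial of Frobenius on a single `H^m(X)` is neither known nor assumed.

The proof: suppose that the conjecture holds in dimension less than `n` and fails for `X` of dimension `n`: there
is a Frobenius eigenvector `x` of weight `m + k` with eigenvalue `a` and `N ^ k x = 0`. If `a a'` is a
power of `q` and `y` in `H^m'(X')` is an eigenvector for the eigenvalue `a'` of weight `m' + k'`, then
`N ^ (k' + 1) y ≠ 0` by the hypothesis for `x ⊗ y`. So in the family `P` of these eigenvalues `a'` the
multiplicities satisfy `mult a' ≤ mult (a' / q ^ (k' + 1))`, for all `X'` and `m'`. In dimension less than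
`n` the multiplicities are symmetric, so they vanish; hence they vanish in the degrees different from `n` on
`X` as well, and also the conjugate ones, by duality; the rationality of the alternating product
then gives the symmetry for `H^n(X)`, and the multiplicities in `P` vanish also there, a contradiction.
-/

set_option autoImplicit false

universe u

namespace Pool.Agent.Results.MP_f8720a_ag.TatePartSuffices

open Pool.Agent.X268.WM Pool.Agent.X268.KC

/-- **Kato's log `ℓ`-adic monodromy-weight conjecture follows from its part for the Frobenius eigenvalues
that are powers of `q` on `H^m(X) ⊗ H^m'(X') ⊂ H^(m + m')(X × X')`.** -/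
theorem result {Ω : Type} [Field Ω] [CharZero Ω] {q : ℕ} (hq : 1 < q) (𝒞 : LogCohomology.{u} Ω q)
    (hT : ∀ (n : ℕ) (X : 𝒞.Var n) (m : ℕ) (n' : ℕ) (X' : 𝒞.Var n') (m' : ℕ), m ≤ 2 * n →
      m' ≤ 2 * n' →
      TatePart q (F2 (𝒞.H X m) (𝒞.H X' m')) (N2 (𝒞.H X m) (𝒞.H X' m')) (m + m'))
    (n : ℕ) (X : 𝒞.Var n) (m : ℕ) (hm : m ≤ 2 * n) : (𝒞.H X m).IsPure m :=
  isPure_of_tatePart 𝒞 hq hT n X m hm

end Pool.Agent.Results.MP_f8720a_ag.TatePartSuffices
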